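import Pool.Agent.H16.LL5

set_option autoImplicit false
open scoped Manifold ContDiff

namespace Pool.Agent.Results.MP_64c48d_gt.NoLinearGrowth

open Pool.Agent.H16.LL

universe u v

/-- Let `M` be a closed smooth manifold (modelled on a finite-dimensional real vector space `E`),
`g` a complete smooth semi-Riemannian metric on `M` which is indefinite at some point, and `η` any
smooth 1-form.  Then there is a light-like geodesic `γ : ℝ → M` along which `η(γ'(t))` is not an
affine function of `t` with nonzero slope. -/
theorem result {E : Type u} [NormedAddCommGroup E] [NormedSpace ℝ E] [FiniteDimensional ℝ E]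
    {M : Type v} [TopologicalSpace M] [T2Space M] [CompactSpace M]
    [ChartedSpace E M] [IsManifold 𝓘(ℝ, E) ∞ M]
    (g : SemiRiemannianMetric E M) (hg : g.Complete) (hi : ∃ x, g.IndefiniteAt x)
    (η : OneForm E M) :
    ∃ γ : ℝ → M, g.IsLightLikeGeodesic γ ∧
      ¬ ∃ C₁ C₂ : ℝ, C₁ ≠ 0 ∧ ∀ t : ℝ, η.val (γ t) (velocity E γ t) = C₁ * t + C₂ :=
  main g hg hi η

end Pool.Agent.Results.MP_64c48d_gt.NoLinearGrowth
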